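import Pool.Agent.Helper88.TGP.One
import Pool.Agent.Helper38.TQ.PreperC

/-!
# Tower gaps: algebraic data, finitely many degenerate periodic points
-/

set_option autoImplicit false

namespace Pool.Agent.Helper88.TGP

open MvPolynomial
open Pool.Agent.Helper33.SS (Sparse InZ ev SGood jprod)
open Pool.Agent.Helper36 (iter iter_succ)
open Pool.Agent.Helper29.TG (cr exists_model sgood_of_sparse_parts pEq_of_cr)
open Pool.Agent.Helper88.TL (ev_iter_smul ev_iter_mul)

theorem algebraic_ev {σ : Type} {f : σ → MvPolynomial σ ℂ}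
    (hf : ∀ i m, IsAlgebraic ℚ ((f i).coeff m)) {x : σ → ℂ} (hx : ∀ i, IsAlgebraic ℚ (x i))
    (n : ℕ) : ∀ i, IsAlgebraic ℚ ((ev f)^[n] x i) := by
  induction n with
  | zero => exact hx
  | succ n ih =>
    intro i
    rw [Function.iterate_succ_apply']
    show IsAlgebraic ℚ (eval ((ev f)^[n] x) (f i))
    rw [eval_eq, ← mem_algebraicClosure_iff]
    refine sum_mem fun m _ => mul_mem ?_ (prod_mem fun l _ => pow_mem ?_ _)
    · rw [mem_algebraicClosure_iff]
      exact hf i m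
    · rw [mem_algebraicClosure_iff]
      exact ih l

/-- Preperiodic points of endomorphisms over the algebraic numbers are algebraic. -/
theorem periodic_algebraic {N d : ℕ} (hd : 2 ≤ d)
    {f : Fin (N + 1) → MvPolynomial (Fin (N + 1)) ℂ} (hf : ∀ i, (f i).IsHomogeneous d)
    (hnz : ∀ x : Fin (N + 1) → ℂ, (∀ i, eval x (f i) = 0) → x = 0)
    (hfalg : ∀ i m, IsAlgebraic ℚ ((f i).coeff m)) {z : Fin (N + 1) → ℂ} (hz : z ≠ 0) {k : ℕ}
    (hk : 1 ≤ k) {c : ℂ} (hc : (ev f)^[k] z = c • z) :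
    ∃ (w : Fin (N + 1) → ℂ) (c' : ℂ), c' ≠ 0 ∧ z = c' • w ∧ ∀ i, IsAlgebraic ℚ (w i) := by
  classical
  let A : Type := algebraicClosure ℚ ℂ
  have hAcl : IsAlgClosed A :=
    (IsAlgClosed.algebraicClosure_eq_bot_iff (algebraicClosure ℚ ℂ) ℂ).1
      (algebraicClosure.algebraicClosure_eq_bot ℚ ℂ)
  have hinj : Function.Injective (algebraMap A ℂ) := (algebraMap A ℂ).injective
  have hlift : ∀ i, ∃ F : MvPolynomial (Fin (N + 1)) A,
      MvPolynomial.map (algebraMap A ℂ) F = f i := by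
    intro i
    refine ⟨∑ m ∈ (f i).support, MvPolynomial.monomial m
      (⟨(f i).coeff m, mem_algebraicClosure_iff.2 (hfalg i m)⟩ : A), ?_⟩
    rw [map_sum]
    conv_rhs => rw [(f i).as_sum]
    refine Finset.sum_congr rfl fun m _ => ?_
    rw [MvPolynomial.map_monomial]
    rfl
  choose F hF using hlift
  have haev : ∀ (x : Fin (N + 1) → ℂ) i, aeval x (F i) = eval x (f i) := by
    intro x i
    rw [← hF i, eval_map, aeval_def]
  have hendo : Pool.Agent.Helper38.TQ.IsEndo d F := by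
    refine ⟨hd, fun i => MvPolynomial.IsHomogeneous.of_map hinj (by rw [hF]; exact hf i),
      fun x hx => ?_⟩
    have h1 : (fun i => algebraMap A ℂ (x i)) = 0 := by
      apply hnz
      intro i
      rw [← haev]
      have h2 : aeval (fun i => algebraMap A ℂ (x i)) (F i) =
        algebraMap A ℂ (aeval x (F i)) := aeval_algebraMap_apply (A := A) (B := ℂ) x (F i)
      rw [h2, aeval_eq_eval]
      have h3 : eval x (F i) = 0 := hx i
      rw [h3, map_zero]
    funext i
    apply hinj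
    have := congrFun h1 i
    simpa using this
  have hiter : ∀ n, iter F z n = (ev f)^[n] z := by
    intro n
    induction n with
    | zero => rfl
    | succ n ih =>
      rw [iter_succ, ih, Function.iterate_succ_apply']
      funext i
      exact haev _ i
  have hev0 : ∀ x : Fin (N + 1) → ℂ, ev f x = 0 → x = 0 := fun x h => hnz x fun i => congrFun h i
  have horb0 : ∀ n, (ev f)^[n] z ≠ 0 := by
    intro n
    induction n with
    | zero => exact hz
    | succ n ih =>
      rw [Function.iterate_succ_apply']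
      exact fun h => ih (hev0 _ h)
  have hc0 : c ≠ 0 := by
    rintro rfl
    exact horb0 k (by rw [hc, zero_smul])
  have hpre : Pool.Agent.Helper38.TQ.Preper F z := by
    refine ⟨0, k, by omega, c, hc0, ?_⟩
    rw [hiter, hiter, hc]
    rfl
  obtain ⟨w, c', hc', hw⟩ := Pool.Agent.Helper38.TQ.isConst_of_preper_complex hendo hz hpre
  refine ⟨fun i => algebraMap A ℂ (w i), c', hc', ?_, fun i => ?_⟩
  · rw [hw]
    rfl
  · exact mem_algebraicClosure_iff.1 (w i).2

theorem iter_mod {N d : ℕ} {f : Fin (N + 1) → MvPolynomial (Fin (N + 1)) ℂ}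
    (hf : ∀ i, (f i).IsHomogeneous d) {w : Fin (N + 1) → ℂ} {k : ℕ} {c : ℂ}
    (hc : (ev f)^[k] w = c • w) (l : ℕ) :
    ∃ c' : ℂ, (ev f)^[l] w = c' • (ev f)^[l % k] w := by
  obtain ⟨e, he⟩ := ev_iter_mul hf hc (l / k)
  refine ⟨(c ^ e) ^ (d ^ (l % k)), ?_⟩
  conv_lhs => rw [← Nat.mod_add_div l k]
  rw [Function.iterate_add_apply, he, ev_iter_smul f hf]

/-- **Tower gaps**: endomorphisms over the algebraic numbers, algebraic points, closed sets of
dimension at most one with finitely many degenerate periodic points. -/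
theorem sgood_algebraic_per (N d : ℕ) (hd : 2 ≤ d)
    (f : Fin (N + 1) → MvPolynomial (Fin (N + 1)) ℂ) (hf : ∀ i, (f i).IsHomogeneous d)
    (hnz : ∀ x : Fin (N + 1) → ℂ, (∀ i, eval x (f i) = 0) → x = 0)
    (hfalg : ∀ i m, IsAlgebraic ℚ ((f i).coeff m))
    (a : Fin (N + 1) → ℂ) (ha : a ≠ 0) (haalg : ∀ i, IsAlgebraic ℚ (a i))
    (V : Set (MvPolynomial (Fin (N + 1)) ℂ)) (hV : ∀ g ∈ V, ∃ e : ℕ, g.IsHomogeneous e)
    (hdim : ringKrullDim (MvPolynomial (Fin (N + 1)) ℂ ⧸ Ideal.span V) ≤ 2)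
    (hbad : ∃ B : Finset (Fin (N + 1) → ℂ), ∀ z : Fin (N + 1) → ℂ, z ≠ 0 → InZ V z →
      ∀ k, 1 ≤ k → ∀ c : ℂ, (ev f)^[k] z = c • z → ((jprod f z k) ^ 2).rank < N →
        ∃ b ∈ B, ∃ c' : ℂ, z = c' • b) :
    SGood {n | InZ V ((ev f)^[n] a)} := by
  classical
  refine sgood_of_sparse_parts f hf hnz a ha V hV (fun hnp hdim' W hW hWV hfin => ?_) (Or.inr hdim)
  obtain ⟨B, hB⟩ := hbad
  have hev0 : ∀ x : Fin (N + 1) → ℂ, ev f x = 0 → x = 0 := fun x h => hnz x fun i => congrFun h i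
  -- normalised degenerate periodic points
  set Bad : (Fin (N + 1) → ℂ) → Prop := fun z => z ≠ 0 ∧ InZ V z ∧
    ∃ k, 1 ≤ k ∧ (∃ c : ℂ, (ev f)^[k] z = c • z) ∧ ((jprod f z k) ^ 2).rank < N with hBad
  have hnorm : ∀ b : {b : Fin (N + 1) → ℂ // b ∈ B ∧ ∃ z, Bad z ∧ ∃ c' : ℂ, z = c' • b},
      ∃ (w : Fin (N + 1) → ℂ) (k : ℕ) (c : ℂ), w ≠ 0 ∧ 1 ≤ k ∧ (ev f)^[k] w = c • w ∧
        (∀ i, IsAlgebraic ℚ (w i)) ∧ ∃ c₁ : ℂ, b.1 = c₁ • w := by
    rintro ⟨b, hb, z, ⟨hz, -, k, hk, ⟨c, hc⟩, -⟩, c', hc'⟩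
    obtain ⟨w, c₂, hc₂, hzw, hw⟩ := periodic_algebraic hd hf hnz hfalg hz hk hc
    have hw0 : w ≠ 0 := by
      rintro rfl
      apply hz
      rw [hzw, smul_zero]
    have hc'0 : c' ≠ 0 := by
      rintro rfl
      apply hz
      rw [hc', zero_smul]
    refine ⟨w, k, (c₂ ^ (d ^ k))⁻¹ * (c * c₂), hw0, hk, ?_, hw, c'⁻¹ * c₂, ?_⟩
    · rw [hzw, ev_iter_smul f hf, smul_smul] at hc
      rw [← smul_smul, ← hc, smul_smul, inv_mul_cancel₀ (pow_ne_zero _ hc₂), one_smul]
    · show b = (c'⁻¹ * c₂) • w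
      have h5 : b = c'⁻¹ • z := by rw [hc', smul_smul, inv_mul_cancel₀ hc'0, one_smul]
      rw [← smul_smul, ← hzw]
      exact h5
  choose w kk cc hw0 hkk hcc hwalg hbw using hnorm
  -- a number field
  let I : Type := Σ b : {b : Fin (N + 1) → ℂ // b ∈ B ∧ ∃ z, Bad z ∧ ∃ c' : ℂ, z = c' • b},
    Fin (kk b)
  have hIfin : Finite {b : Fin (N + 1) → ℂ // b ∈ B ∧ ∃ z, Bad z ∧ ∃ c' : ℂ, z = c' • b} :=
    (B.finite_toSet.subset fun b hb => hb.1).to_subtype
  have hI : Finite I := inferInstance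
  have : Fintype I := Fintype.ofFinite I
  obtain ⟨K, _, _, _, F, α, hFf, hαa⟩ := exists_model f hfalg
    (Sum.elim a (fun q : I × Fin (N + 1) => (ev f)^[(q.1.2 : ℕ)] (w q.1.1) q.2)) (by
      rintro (i | q)
      · exact haalg i
      · exact algebraic_ev hfalg (hwalg q.1.1) _ _)
  have hinj : Function.Injective (algebraMap K ℂ) := FaithfulSMul.algebraMap_injective K ℂ
  have hff : (fun i => MvPolynomial.map (algebraMap K ℂ) (F i)) = f := funext hFf
  have hF : ∀ i, (F i).IsHomogeneous d := fun i =>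
    MvPolynomial.IsHomogeneous.of_map hinj (by rw [hFf]; exact hf i)
  have haev : ∀ (x : Fin (N + 1) → ℂ) i, aeval x (F i) = eval x (f i) := by
    intro x i
    rw [← hFf i, eval_map, aeval_def]
  set a₀ : Fin (N + 1) → K := fun i => α (Sum.inl i) with ha₀
  have ha₀a : ∀ i, algebraMap K ℂ (a₀ i) = a i := fun i => hαa (Sum.inl i)
  have hiter : ∀ n, (ev f)^[n] a = fun i => algebraMap K ℂ (iter F a₀ n i) := by
    intro n
    induction n with
    | zero =>
      funext i
      exact (ha₀a i).symm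
    | succ n ih =>
      rw [Function.iterate_succ_apply', ih]
      funext i
      rw [iter_succ]
      show eval _ (f i) = _
      rw [← haev]
      exact aeval_algebraMap_apply (A := K) (B := ℂ) (iter F a₀ n) (F i)
  have hα : a₀ ≠ 0 := by
    intro h
    apply ha
    funext i
    rw [← ha₀a i, h, Pi.zero_apply, map_zero, Pi.zero_apply]
  set yy : I → Fin (N + 1) → K := fun q i => α (Sum.inr (q, i)) with hyy
  have hyya : ∀ q, (fun i => algebraMap K ℂ (yy q i)) = (ev f)^[(q.2 : ℕ)] (w q.1) := by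
    intro q
    funext i
    exact hαa (Sum.inr (q, i))
  have hw0' : ∀ b n, (ev f)^[n] (w b) ≠ 0 := by
    intro b n
    induction n with
    | zero => exact hw0 b
    | succ n ih =>
      rw [Function.iterate_succ_apply']
      exact fun h => ih (hev0 _ h)
  have hx0 : ∀ n, (ev f)^[n] a ≠ 0 := by
    intro n
    induction n with
    | zero => exact ha
    | succ n ih =>
      rw [Function.iterate_succ_apply']
      exact fun h => ih (hev0 _ h)
  -- the orbit of `a` does not meet the periodic points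
  have hZx : ∀ n, ∀ y ∈ Finset.univ.image yy, cr (iter F a₀ n) y ≠ 0 := by
    intro n y hy h
    obtain ⟨q, -, rfl⟩ := Finset.mem_image.1 hy
    have hyq0 : yy q ≠ 0 := by
      intro h0
      apply hw0' q.1 q.2
      rw [← hyya q, h0]
      funext i
      simp
    have hxn0 : iter F a₀ n ≠ 0 := by
      intro h0
      apply hx0 n
      rw [hiter, h0]
      funext i
      simp
    obtain ⟨c, hc, hcy⟩ := pEq_of_cr hxn0 hyq0 h
    -- over the complex numbers
    have h1 : (ev f)^[(q.2 : ℕ)] (w q.1) = algebraMap K ℂ c • (ev f)^[n] a := by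
      rw [← hyya q, hcy, hiter]
      funext i
      simp
    have hc0 : algebraMap K ℂ c ≠ 0 := (map_ne_zero _).2 hc
    have h2 : (ev f)^[kk q.1] ((ev f)^[(q.2 : ℕ)] (w q.1))
        = (cc q.1) ^ (d ^ (q.2 : ℕ)) • (ev f)^[(q.2 : ℕ)] (w q.1) := by
      rw [← Function.iterate_add_apply, Nat.add_comm (kk q.1), Function.iterate_add_apply, hcc,
        ev_iter_smul f hf]
    rw [h1, ev_iter_smul f hf, ← Function.iterate_add_apply] at h2
    apply hnp n (kk q.1) (hkk q.1) (((algebraMap K ℂ c) ^ (d ^ kk q.1))⁻¹ *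
      ((cc q.1) ^ (d ^ (q.2 : ℕ)) * algebraMap K ℂ c))
    rw [add_comm n, ← smul_smul, ← smul_smul, ← h2, smul_smul,
      inv_mul_cancel₀ (pow_ne_zero _ hc0), one_smul]
  have hres := sparse_one_per hd F hF (fun x hx => hnz x fun i => by rw [← haev]; exact hx i) a₀ hα
    (fun n m hnm h => ?_) (Finset.univ.image yy) hZx V hV hdim' ?_ W hW hWV
    (by rw [hff]; exact hfin)
  · refine hres.mono fun n hn => ?_
    show InZ W _
    rw [← hiter]
    exact hn
  · obtain ⟨c, hc, h1⟩ := h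
    apply hnp n (m - n) (by omega) (algebraMap K ℂ c)
    rw [show n + (m - n) = m by omega, hiter, hiter]
    funext i
    have h2 := congrFun h1 i
    simp only [Pi.smul_apply, smul_eq_mul] at h2 ⊢
    rw [h2, map_mul]
  · rw [hff]
    intro z hz hzV k hk c hc
    by_cases hr : ((jprod f z k) ^ 2).rank < N
    · right
      intro l
      obtain ⟨b, hb, c', hc'⟩ := hB z hz hzV k hk c hc hr
      set b' : {b : Fin (N + 1) → ℂ // b ∈ B ∧ ∃ z, Bad z ∧ ∃ c' : ℂ, z = c' • b} :=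
        ⟨b, hb, z, ⟨hz, hzV, k, hk, ⟨c, hc⟩, hr⟩, c', hc'⟩ with hb'
      obtain ⟨c₁, hc₁⟩ := hbw b'
      have hc₁' : b = c₁ • w b' := hc₁
      obtain ⟨c₂, hc₂⟩ := iter_mod hf (hcc b') l
      have hlt : l % kk b' < kk b' := Nat.mod_lt _ (by have := hkk b'; omega)
      refine ⟨yy ⟨b', ⟨l % kk b', hlt⟩⟩, Finset.mem_coe.2 (Finset.mem_image_of_mem _
        (Finset.mem_univ _)), (c' * c₁) ^ (d ^ l) * c₂, ?_⟩
      rw [hyya, hc', hc₁', smul_smul, ev_iter_smul f hf, hc₂, smul_smul]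
    · left
      omega

end Pool.Agent.Helper88.TGP
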