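import Pool.Agent.Helper88.TGP.Core2
import Pool.Agent.Helper88.TL.Bridge

/-!
# Sparse return sets from a place with a large contact: the criterion with periodic points
-/

set_option autoImplicit false

namespace Pool.Agent.Helper88.TGP

open Pool.Agent.Helper33.SS Pool.Agent.Helper88.TL MvPolynomial Filter Topology Height
  AdmissibleAbsValues
open Pool.Agent.Helper29.TG (nm cr ct df nm_pos nm_smul le_nm nm_le exists_nm_eq)

section
variable {p : ℕ} [Fact p.Prime] {R : Type} [NormedCommRing R] {ι : R →+* ℂ_[p]} {σ : Type}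

theorem sim_iter_mul (hR : Loc p R ι) {e : ℝ} (he : 0 ≤ e) {F : σ → MvPolynomial σ R} {d : ℕ}
    (hF : ∀ i, (F i).IsHomogeneous d) {a : σ → R} {i N : ℕ}
    (h : Sim e ((ev F)^[i + N] a) ((ev F)^[i] a)) (q : ℕ) :
    Sim e ((ev F)^[i + N * q] a) ((ev F)^[i] a) := by
  induction q with
  | zero => exact Sim.refl hR he _
  | succ q ih =>
    have h1 := h.ev_iter hR he hF (N * q)
    rw [← Function.iterate_add_apply, ← Function.iterate_add_apply] at h1
    have e1 : N * q + (i + N) = i + N * (q + 1) := by ring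
    have e2 : N * q + i = i + N * q := by ring
    rw [e1, e2] at h1
    exact Sim.trans hR h1 ih

/-- A limit point of the orbit is near the orbit. -/
theorem exists_near (hR : Loc p R ι) {e : ℝ} (he : 0 < e) {F : σ → MvPolynomial σ R}
    [Fintype σ] {a : σ → R} (i : ℕ) (z : σ → R) (t : ℕ → ℕ) (ht : Tendsto t atTop atTop)
    (hz : Tendsto (fun l => (ev F)^[t l] a) atTop (𝓝 z)) :
    ∃ m, i ≤ m ∧ Sim e z ((ev F)^[m] a) := by
  obtain ⟨n₁, hn₁⟩ := (Metric.tendsto_atTop.1 hz) e he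
  obtain ⟨n₂, hn₂⟩ := (tendsto_atTop_atTop.1 ht) i
  refine ⟨t (max n₁ n₂), hn₂ _ (le_max_right _ _), 1, hR.norm_one, fun l => ?_⟩
  have h2 := hn₁ (max n₁ n₂) (le_max_left _ _)
  rw [one_mul, ← dist_eq_norm, dist_comm]
  exact ((dist_le_pi_dist _ _ l).trans_lt h2).le

/-- An iterate of a limit point is near `x_i`. -/
theorem exists_iterate_sim (hR : Loc p R ι) {e : ℝ} (he : 0 < e) {F : σ → MvPolynomial σ R}
    {d : ℕ} (hF : ∀ i, (F i).IsHomogeneous d) [Fintype σ] {a : σ → R} {i N : ℕ} (hN : 1 ≤ N)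
    (h : Sim e ((ev F)^[i + N] a) ((ev F)^[i] a)) (z : σ → R) (t : ℕ → ℕ)
    (ht : Tendsto t atTop atTop) (hz : Tendsto (fun l => (ev F)^[t l] a) atTop (𝓝 z)) :
    ∃ l, Sim e ((ev F)^[l] z) ((ev F)^[i] a) := by
  obtain ⟨m, hm, hsim⟩ := exists_near hR he i z t ht hz
  refine ⟨(N - 1) * (m - i), ?_⟩
  have h1 := hsim.ev_iter hR he.le hF ((N - 1) * (m - i))
  rw [← Function.iterate_add_apply] at h1
  have e1 : (N - 1) * (m - i) + m = i + N * (m - i) := by
    obtain ⟨k, rfl⟩ := Nat.exists_eq_add_of_le hm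
    obtain ⟨N', rfl⟩ := Nat.exists_eq_add_of_le hN
    rw [Nat.add_sub_cancel_left, Nat.add_sub_cancel_left]
    ring
  rw [e1] at h1
  exact Sim.trans hR h1 (sim_iter_mul hR he.le hF h (m - i))

theorem sim_prim (hR : Loc p R ι) {e : ℝ} (he1 : e < 1) {x y : σ → R} (h : Sim e x y)
    (hy : ∃ i, ‖y i‖ = 1) : ∃ i, ‖x i‖ = 1 := by
  obtain ⟨u, hu, hj⟩ := h
  obtain ⟨i, hi⟩ := hy
  refine ⟨i, ?_⟩
  have h1 : x i = (x i - u * y i) + u * y i := by ring
  have h2 : ‖u * y i‖ = 1 := by rw [hR.norm_mul, hu, hi, one_mul]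
  have h3 := (hj i).trans_lt he1
  rw [h1, hR.add_eq_max (by rw [h2]; exact h3.ne), h2]
  exact max_eq_right h3.le

end

section
variable {K : Type} [Field K] [Algebra K ℂ] {v : AbsoluteValue K ℝ} {p : ℕ} [Fact p.Prime]
  {R : Type} [NormedCommRing R] {ι : R →+* ℂ_[p]} {j : K →+* ℂ_[p]} {n : ℕ} {s : ℂ ≃+* ℂ_[p]}
  {σ : Type}

theorem contact_of_sim (h : PlaceData K v p R ι j n s) {x y : σ → K} {x' w : σ → R}
    (hx' : ∀ i, ι (x' i) = j (x i)) (hxp : ∃ i, v (x i) = 1) {e : ℝ} (he0 : 0 ≤ e) (he1 : e < 1)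
    (hw : Sim e w x') {c : ℂ_[p]} (hc : ∀ i, ι (w i) = c * j (y i)) [Finite σ] (q : σ × σ) :
    v (cr x y q) ≤ e ^ n * nm v y := by
  have hR := h.hR
  obtain ⟨i₀, hi₀⟩ := hxp
  have hx1 : ‖x' i₀‖ = 1 := (h.eq_one_iff' (hx' i₀)).1 hi₀
  obtain ⟨i₁, hi₁⟩ := sim_prim hR he1 hw ⟨i₀, hx1⟩
  obtain ⟨u, hu, huj⟩ := hw
  have h1 : ‖c‖ * ‖j (y i₁)‖ = 1 := by
    rw [← norm_mul, ← hc, hR.norm_map, hi₁]
  have hcr : c * j (cr x y q) = ι (x' q.1 * (w q.2 - u * x' q.2) - x' q.2 * (w q.1 - u * x' q.1)) := by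
    rw [map_sub, map_mul, map_mul, map_sub, map_sub, map_mul, map_mul, hx', hx', hc, hc, cr,
      map_sub, map_mul, map_mul]
    ring
  have h2 : ‖c‖ * ‖j (cr x y q)‖ ≤ e := by
    rw [← norm_mul, hcr, hR.norm_map, sub_eq_add_neg]
    refine hR.add_le_of ?_ ?_
    · rw [hR.norm_mul]
      calc ‖x' q.1‖ * ‖w q.2 - u * x' q.2‖ ≤ 1 * e :=
            mul_le_mul (hR.le_one _) (huj _) (norm_nonneg _) zero_le_one
        _ = e := one_mul e
    · rw [norm_neg, hR.norm_mul]
      calc ‖x' q.2‖ * ‖w q.1 - u * x' q.1‖ ≤ 1 * e :=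
            mul_le_mul (hR.le_one _) (huj _) (norm_nonneg _) zero_le_one
        _ = e := one_mul e
  have h3 : ‖j (cr x y q)‖ ≤ e * ‖j (y i₁)‖ := by
    have h4 : ‖j (cr x y q)‖ = (‖c‖ * ‖j (cr x y q)‖) * ‖j (y i₁)‖ := by
      calc ‖j (cr x y q)‖ = ‖j (cr x y q)‖ * (‖c‖ * ‖j (y i₁)‖) := by rw [h1, mul_one]
        _ = _ := by ring
    rw [h4]
    exact mul_le_mul_of_nonneg_right h2 (norm_nonneg _)
  calc v (cr x y q) = ‖j (cr x y q)‖ ^ n := h.hvj _
    _ ≤ (e * ‖j (y i₁)‖) ^ n := pow_le_pow_left₀ (norm_nonneg _) h3 n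
    _ = e ^ n * v (y i₁) := by rw [mul_pow, ← h.hvj]
    _ ≤ e ^ n * nm v y := mul_le_mul_of_nonneg_left (le_nm v y i₁) (pow_nonneg he0 n)

/-- The orbit of a point over the unit ball and over the complex numbers. -/
theorem orbit_s (h : PlaceData K v p R ι j n s) {F : σ → MvPolynomial σ K}
    {F' : σ → MvPolynomial σ R} (hF' : ∀ i, MvPolynomial.map ι (F' i) = MvPolynomial.map j (F i))
    (z : σ → R) (l : ℕ) (i : σ) :
    s ((ev fun i => MvPolynomial.map (algebraMap K ℂ) (F i))^[l] (fun i => s.symm (ι (z i))) i)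
      = ι ((ev F')^[l] z i) := by
  have h1 := ev_iterate_map (s : ℂ →+* ℂ_[p]) (fun i => MvPolynomial.map (algebraMap K ℂ) (F i)) l
    (fun i => s.symm (ι (z i)))
  have h2 := ev_iterate_map ι F' l z
  have h3 : (fun i => MvPolynomial.map (s : ℂ →+* ℂ_[p]) (MvPolynomial.map (algebraMap K ℂ) (F i)))
      = fun i => MvPolynomial.map ι (F' i) := by
    funext i
    rw [hF' i, map_eq h]
  have h4 : (fun i => (s : ℂ →+* ℂ_[p]) (s.symm (ι (z i)))) = fun i => ι (z i) := by
    funext i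
    exact RingEquiv.apply_symm_apply s _
  rw [h3, h4, h2] at h1
  exact (congrFun h1 i).symm

theorem rank_s (h : PlaceData K v p R ι j n s) {F : σ → MvPolynomial σ K}
    {F' : σ → MvPolynomial σ R} (hF' : ∀ i, MvPolynomial.map ι (F' i) = MvPolynomial.map j (F i))
    [Fintype σ] [DecidableEq σ] (z : σ → R) (k : ℕ) :
    ((jprod (fun i => MvPolynomial.map (algebraMap K ℂ) (F i)) (fun i => s.symm (ι (z i))) k)
      ^ 2).rank = (((jprod F' z k).map ι) ^ 2).rank := by
  have h1 := Pool.Agent.Helper88.TL.jprod_map (s : ℂ →+* ℂ_[p]) (fun i => MvPolynomial.map (algebraMap K ℂ) (F i))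
    (fun i => s.symm (ι (z i))) k
  have h2 := Pool.Agent.Helper88.TL.jprod_map ι F' z k
  have h3 : (fun i => MvPolynomial.map (s : ℂ →+* ℂ_[p]) (MvPolynomial.map (algebraMap K ℂ) (F i)))
      = fun i => MvPolynomial.map ι (F' i) := by
    funext i
    rw [hF' i, map_eq h]
  have h4 : (fun i => (s : ℂ →+* ℂ_[p]) (s.symm (ι (z i)))) = fun i => ι (z i) := by
    funext i
    exact RingEquiv.apply_symm_apply s _
  rw [h3, h4, h2] at h1
  rw [h1]
  have h5 : ((jprod (fun i => MvPolynomial.map (algebraMap K ℂ) (F i))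
      (fun i => s.symm (ι (z i))) k).map (s : ℂ →+* ℂ_[p])) ^ 2
      = ((jprod (fun i => MvPolynomial.map (algebraMap K ℂ) (F i))
        (fun i => s.symm (ι (z i))) k) ^ 2).map s :=
    (map_pow (s : ℂ →+* ℂ_[p]).mapMatrix _ _).symm
  rw [h5, rank_map_ringEquiv s]

end

section
variable {K : Type} [Field K] [NumberField K] [Algebra K ℂ] {σ : Type} [Fintype σ] [DecidableEq σ]

/-- **The criterion with periodic points.** At the place `v` the contact of `x_i` and `x_n` is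
larger than the contacts of `x_i` with the points of `Z`, and `Z` contains all the iterates of
the periodic points in `V` where the square of the tangent map has small rank. -/
theorem sparse_of_contact_per (v : AbsoluteValue K ℝ) (hv : v ∈ nonarchAbsVal (K := K))
    (hp2 : v 2 = 1) (F : σ → MvPolynomial σ K) (d : ℕ) (hd : 0 < d)
    (hF : ∀ i, (F i).IsHomogeneous d) (hint : ∀ i m, v ((F i).coeff m) ≤ 1)
    (hgood : ∀ y : σ → K, (∀ i, v (y i) ≤ 1) → (∃ i, v (y i) = 1) → ∃ i, v (eval y (F i)) = 1)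
    (x : ℕ → σ → K) (hx : ∀ n, x n ≠ 0)
    (hstep : ∀ n, ∃ c : K, c ≠ 0 ∧ x (n + 1) = c • fun i => eval (x n) (F i))
    (hnp : ∀ n m, n ≠ m → cr (x n) (x m) ≠ 0)
    (i n : ℕ) (hin : i < n) (hct : 0 < ct v (x i) (x n))
    (Z : Set (σ → K)) (hZ : ∀ y ∈ Z, cr (x i) y ≠ 0 ∧ ct v (x i) y < ct v (x i) (x n))
    (V : Set (MvPolynomial σ ℂ)) (hV : ∀ g ∈ V, ∃ e : ℕ, g.IsHomogeneous e)
    (hper : ∀ z : σ → ℂ, z ≠ 0 → InZ V z → ∀ k, 1 ≤ k → ∀ c : ℂ,
      (ev fun i => MvPolynomial.map (algebraMap K ℂ) (F i))^[k] z = c • z →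
      Fintype.card σ ≤ ((jprod (fun i => MvPolynomial.map (algebraMap K ℂ) (F i)) z k) ^ 2).rank + 1
      ∨ ∀ l, ∃ y ∈ Z, ∃ c' : ℂ, (ev fun i => MvPolynomial.map (algebraMap K ℂ) (F i))^[l] z
        = c' • fun i => algebraMap K ℂ (y i))
    (hfin : ∀ k, 1 ≤ k → ∃ B : Finset (σ → ℂ), ∀ z : σ → ℂ, z ≠ 0 →
      (∀ n, InZ V ((ev fun i => MvPolynomial.map (algebraMap K ℂ) (F i))^[k * n] z)) →
        ∃ b ∈ B, ∃ c : ℂ, z = c • b) :
    Sparse {n | InZ V (fun j => algebraMap K ℂ (x n j))} := by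
  classical
  obtain ⟨p, hpf, R, hRn, ι, j, n₀, s, hp3, h⟩ := exists_place hv hp2
  have hR := h.hR
  obtain ⟨a, b, hb, hab, ha1, ha2⟩ := exists_prim_orbit v hF hx hstep
  choose F' hF' using fun i => h.exists_lift (F i) (hint i)
  choose a' ha' using fun i => h.hint (a i) (ha1 i)
  have horb := fun m => PlaceData.orbit hF' ha' m
  have hprim := fun m => h.orbit_prim hF' hgood ha' ha2 m
  have hnm : ∀ m, nm v ((ev F)^[m] a) = 1 := fun m => nm_eq_one (hprim m).1 (hprim m).2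
  have hF'h : ∀ i, (F' i).IsHomogeneous d := by
    intro i
    apply homogeneous_of_map ι hR.injective
    rw [hF' i]
    exact (hF i).map _
  have hcr : cr ((ev F)^[i] a) ((ev F)^[n] a) ≠ 0 := by
    rw [hab, hab]
    exact cr_smul_ne (hb i) (hb n) (hnp i n hin.ne)
  have hct' : ct v (x i) (x n) = -Real.log (nm v (cr ((ev F)^[i] a) ((ev F)^[n] a))) := by
    rw [← ct_smul' v (hb i) (hb n) (hnp i n hin.ne), ← hab, ← hab, ct, hnm, hnm, Real.log_one]
    ring
  set ε := nm v (cr ((ev F)^[i] a) ((ev F)^[n] a)) with hε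
  have hε0 : 0 < ε := nm_pos v hcr
  have hε1 : ε < 1 := by
    rw [hct'] at hct
    have h1 : Real.log ε < 0 := by linarith
    exact (Real.log_neg_iff hε0).1 h1
  obtain ⟨e, he0, he1, hen⟩ := exists_root hε0 hε1 h.hn
  have hsim : Sim e ((ev F')^[n] a') ((ev F')^[i] a') :=
    h.sim (horb i) (horb n) (hprim i).2 (hprim n).2 he0.le he1 fun q => by
      rw [hen]
      exact le_nm v _ q
  have hN : 1 ≤ n - i := by omega
  have hiN : i + (n - i) = n := by omega
  have hprim' : ∀ m, ∃ l, ‖(ev F')^[m] a' l‖ = 1 := by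
    intro m
    obtain ⟨l, hl⟩ := (hprim m).2
    exact ⟨l, (h.eq_one_iff' (horb m l)).1 hl⟩
  have hmain := main2 h hp3 F d hd hF hgood F' hF' a ha2 a' ha' (fun m k hk c hcon => by
      apply hnp m (m + k) (by omega)
      have h1 : x (m + k) = ((b (m + k))⁻¹ * (c * b m)) • x m := by
        have h2 : b (m + k) • x (m + k) = (c * b m) • x m := by
          rw [← hab, hcon, hab, smul_smul]
        rw [← smul_smul, ← h2, smul_smul, inv_mul_cancel₀ (hb _), one_smul]
      rw [h1]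
      funext q
      simp only [cr, Pi.smul_apply, smul_eq_mul, Pi.zero_apply]
      ring) V hV hfin ?_
  · -- back to `x`
    refine hmain.mono fun m hm => ?_
    show InZ V _
    have h1 : (fun l => algebraMap K ℂ ((ev F)^[m] a l))
        = algebraMap K ℂ (b m) • fun l => algebraMap K ℂ (x m l) := by
      funext l
      rw [hab, Pi.smul_apply, Pi.smul_apply, smul_eq_mul, smul_eq_mul, map_mul]
    rw [h1]
    intro g hg
    obtain ⟨e', he'⟩ := hV g hg
    rw [eval_smul_form he', hm g hg, mul_zero]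
  · -- the rank condition
    intro z t ht hz hzV k hk c _ hfix
    obtain ⟨m, -, hzm⟩ := exists_near hR he0 i z t ht hz
    obtain ⟨l₁, hl₁⟩ := sim_prim hR he1 hzm (hprim' m)
    have hz'0 : (fun i => s.symm (ι (z i))) ≠ 0 := by
      intro h0
      have h1 := congrFun h0 l₁
      simp only [Pi.zero_apply] at h1
      have h2 := (map_eq_zero_iff _ s.symm.injective).1 h1
      rw [(map_eq_zero_iff _ hR.injective).1 h2, norm_zero] at hl₁
      exact zero_ne_one hl₁
    have hfix' : (ev fun i => MvPolynomial.map (algebraMap K ℂ) (F i))^[k]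
        (fun i => s.symm (ι (z i))) = s.symm (ι c) • fun i => s.symm (ι (z i)) := by
      funext l
      apply s.injective
      rw [orbit_s h hF' z k l, hfix]
      simp only [Pi.smul_apply, smul_eq_mul, map_mul, RingEquiv.apply_symm_apply]
    rcases hper _ hz'0 hzV k hk _ hfix' with hgd | hbad
    · rwa [rank_s h hF' z k] at hgd
    · exfalso
      obtain ⟨l, hl⟩ := exists_iterate_sim hR he0 hF'h hN (by rw [hiN]; exact hsim) z t ht hz
      obtain ⟨y, hy, c', hc'⟩ := hbad l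
      obtain ⟨hcry, hlt⟩ := hZ y hy
      have h1 : ∀ r, ι ((ev F')^[l] z r) = s c' * j (y r) := by
        intro r
        rw [← orbit_s h hF' z l r, hc', Pi.smul_apply, smul_eq_mul, map_mul, h.hs]
      have h2 : ∀ q, v (cr ((ev F)^[i] a) y q) ≤ ε * nm v y := by
        intro q
        rw [← hen]
        exact contact_of_sim h (horb i) (hprim i).2 he0.le he1 hl h1 q
      have hy0 := Pool.Agent.Helper29.TG.right_ne_zero hcry
      have hcr' : cr ((ev F)^[i] a) y ≠ 0 := by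
        have := cr_smul_ne (hb i) one_ne_zero hcry
        rwa [one_smul, ← hab] at this
      have h3 : ct v (x i) y = ct v ((ev F)^[i] a) y := by
        rw [← ct_smul' v (hb i) one_ne_zero hcry, one_smul, ← hab]
      have h4 : nm v (cr ((ev F)^[i] a) y) ≤ ε * nm v y :=
        nm_le (mul_nonneg hε0.le (nm_pos v hy0).le) h2
      have h5 : Real.log (nm v (cr ((ev F)^[i] a) y)) ≤ Real.log ε + Real.log (nm v y) := by
        rw [← Real.log_mul hε0.ne' (nm_pos v hy0).ne']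
        exact Real.log_le_log (nm_pos v hcr') h4
      rw [h3, ct, hnm, Real.log_one, hct'] at hlt
      linarith

end

end Pool.Agent.Helper88.TGP
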