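import Pool.Agent.Helper29.TG.Count

/-!
# A place where the contact is larger than the contacts with finitely many given points

A variant of `Helper29/TG/Count.lean`.
-/

set_option autoImplicit false

namespace Pool.Agent.Helper88.TGP

open Height AdmissibleAbsValues MvPolynomial
open Pool.Agent.Helper29.TG

variable {K : Type} [Field K] [CharZero K] [AdmissibleAbsValues K] {ν : ℕ}

/-- `x n` distinct points with growing heights, infinitely many of them (`n ∈ S`) on a curve, `Z`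
a finite set of other points. There are a non-archimedean place `v` outside a given finite
set and `i < n` in `S` such that at `v` the contact of `x_i` and `x_n` is larger than the
contacts of `x_i` with the points of `Z`. -/
theorem exists_good_place_per {x : ℕ → Fin (ν + 1) → K} (hx : ∀ n, x n ≠ 0) {S : Set ℕ}
    (hS : S.Infinite) (hnp : ∀ n ∈ S, ∀ n' ∈ S, n ≠ n' → cr (x n) (x n') ≠ 0)
    (hc : OnCurveS S x)
    (hgrow : ∃ m₀, ∀ n, m₀ ≤ n → (2 : ℝ) ^ (n - m₀) ≤ logHeight (x n))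
    (Z : Finset (Fin (ν + 1) → K)) (hZ : ∀ i ∈ S, ∀ y ∈ Z, cr (x i) y ≠ 0)
    {B : Set (AbsoluteValue K ℝ)} (hB : B.Finite) :
    ∃ v ∈ nonarchAbsVal (K := K), v ∉ B ∧ ∃ i ∈ S, ∃ n ∈ S, i < n ∧
      0 < ct v (x i) (x n) ∧ ∀ y ∈ Z, ct v (x i) y < ct v (x i) (x n) := by
  classical
  by_contra hcon
  push Not at hcon
  obtain ⟨m₀, hm₀⟩ := hgrow
  -- the plane
  obtain ⟨T, a, e, D', V, g, P, hTS, hTi, hV, hP, hg, hirr, hT⟩ := exists_plane hS
    (fun n _ => hx n) hnp hc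
  set y : ℕ → Fin 3 → K := fun n => pl a (x n) with hy
  obtain ⟨C₂, hC₂⟩ := exists_logHeight_le_pl a V hP
  have hy1 : ∀ n ∈ T, y n ≠ 0 ∧ logHeight (x n) ≤ (e + 1) * logHeight (y n) + C₂ := fun n hn =>
    hC₂ (x n) (hx n) (hT n hn).2.1 (hT n hn).2.2
  have hcrx : ∀ n ∈ T, ∀ n' ∈ T, n ≠ n' → cr (x n) (x n') ≠ 0 := fun n hn n' hn' h =>
    hnp n (hTS hn) n' (hTS hn') h
  have hcry : ∀ n ∈ T, ∀ n' ∈ T, n ≠ n' → cr (y n) (y n') ≠ 0 := fun n hn n' hn' h =>
    cr_pl_ne_zero hP (hT n hn).2.1 (hT n' hn').2.1 (hT n hn).2.2 (hT n' hn').2.2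
      (hcrx n hn n' hn' h)
  -- bad places
  set B' : Set (AbsoluteValue K ℝ) := B ∪ {v | v ∈ archAbsVal (K := K)} ∪
    {v | v ∈ nonarchAbsVal (K := K) ∧ ¬ CoeffInt v V} ∪
    (⋃ j, {v | v ∈ nonarchAbsVal (K := K) ∧ ¬ CoeffInt v (P j)}) ∪
    (⋃ j, {v | v ∈ nonarchAbsVal (K := K) ∧ ¬ CoeffInt v (∑ i, C (a j i) * X i)}) with hB'
  have hB'f : B'.Finite := by
    refine (((hB.union finite_arch).union (finite_not_coeffInt V)).union ?_).union ?_
    · exact Set.finite_iUnion fun j => finite_not_coeffInt (P j)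
    · exact Set.finite_iUnion fun j => finite_not_coeffInt _
  have hgood : ∀ v, Mem v → v ∉ B' → v ∈ nonarchAbsVal (K := K) ∧ v ∉ B ∧
      CoeffInt v V ∧ (∀ j, CoeffInt v (P j)) ∧ ∀ j i, v (a j i) ≤ 1 := by
    intro v hv hvB
    simp only [hB', Set.mem_union, Set.mem_ofPred_eq, Set.mem_iUnion, not_or, not_exists,
      not_and, not_not] at hvB
    obtain ⟨⟨⟨⟨h1, h2⟩, h4⟩, h5⟩, h6⟩ := hvB
    have hv' : v ∈ nonarchAbsVal (K := K) := hv.resolve_left h2
    refine ⟨hv', h1, h4 hv', fun j => h5 j hv', fun j i => ?_⟩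
    have h7 := h6 j hv' (Finsupp.single i 1)
    have h8 : coeff (Finsupp.single i 1) (∑ i, C (a j i) * X i : MvPolynomial (Fin (ν + 1)) K)
        = a j i := by
      rw [coeff_sum, Finset.sum_eq_single i]
      · rw [coeff_C_mul, coeff_X, if_pos rfl, mul_one]
      · intro b _ hb
        rw [coeff_C_mul, coeff_X, if_neg, mul_zero]
        intro h
        exact hb (Finsupp.single_left_injective one_ne_zero h)
      · intro h
        exact absurd (Finset.mem_univ i) h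
    rwa [h8] at h7
  set ind : AbsoluteValue K ℝ → ℝ := fun v => if v ∈ B' then 1 else 0 with hind
  have hindFS : FS ind := FS.of_finite hB'f fun v _ hv => by simp only [hind, if_neg hv]
  set b : ℝ := ls ind with hb
  obtain ⟨N', hN'⟩ := exists_nat_ge (b + e + 1)
  have hb0 : 0 ≤ b := ls_nonneg hindFS fun v _ => by
    simp only [hind]
    split_ifs <;> norm_num
  have hN'1 : 1 ≤ N' := by
    have h1 : (1 : ℝ) ≤ N' := by
      refine le_trans ?_ hN'
      have : (0 : ℝ) ≤ e := Nat.cast_nonneg e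
      linarith
    exact_mod_cast h1
  obtain ⟨Γ, C₃, hΓT, hΓ, hexc⟩ := exists_low hTi (fun n hn => (hy1 n hn).1) hcry hg hirr
    (fun n hn => (hT n hn).1) N' hN'1
  -- constants
  choose c₄ hc₄ using fun i : ℕ => exists_ct_le (y i)
  set C₄ : ℝ := ∑ i ∈ Γ, |c₄ i| with hC₄
  have hC₄0 : 0 ≤ C₄ := Finset.sum_nonneg fun _ _ => abs_nonneg _
  have hct : ∀ i ∈ Γ, ∀ v, Mem v → ∀ z, cr (y i) z ≠ 0 → ct v (y i) z ≤ logHeight z + C₄ := by
    intro i hi v hv z hz
    have h1 := hc₄ i v hv z hz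
    have h2 : |c₄ i| ≤ C₄ := Finset.single_le_sum (f := fun i => |c₄ i|)
      (fun _ _ => abs_nonneg _) hi
    linarith [le_abs_self (c₄ i)]
  set R : AbsoluteValue K ℝ → ℝ := fun v => ∑ i ∈ Γ, ∑ j ∈ Γ.erase i,
    (ct v (y i) (y j) + Real.log 6 * ind v) with hR
  have hcrΓ : ∀ i ∈ Γ, ∀ j ∈ Γ, i ≠ j → cr (y i) (y j) ≠ 0 := fun i hi j hj =>
    hcry i (hΓT hi) j (hΓT hj)
  have hRFS : FS R := FS.sum Γ fun i hi => FS.sum (Γ.erase i) fun j hj =>
    (FS_ct (hcrΓ i hi j (Finset.mem_of_mem_erase hj) (Finset.ne_of_mem_erase hj).symm)).add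
      (hindFS.mul_left _)
  obtain ⟨C_V, hC_V⟩ := exists_ls_df_le hV B'
  set dV : ℕ → AbsoluteValue K ℝ → ℝ := fun n v => if v ∈ B' then 0 else df v V e (y n) with hdV
  set cZ : ℕ → AbsoluteValue K ℝ → ℝ := fun i v => if v ∈ B' then 0 else ∑ w ∈ Z, ct v (x i) w
    with hcZ
  have hdV1 : ∀ n ∈ T, FS (dV n) ∧ ls (dV n) ≤ e * logHeight (y n) + C_V := by
    intro n hn
    have h1 := hC_V (y n) (hy1 n hn).1 (hT n hn).2.1
    convert h1
  have hcZ1 : ∀ i ∈ T, FS (cZ i) := by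
    intro i hi
    refine (FS.sum Z fun w hw => FS_ct (hZ i (hTS hi) w hw)).mono fun v _ h0 => ?_
    simp only [hcZ]
    split_ifs
    · rfl
    · exact h0
  have hdV0 : ∀ n ∈ T, ∀ v, Mem v → 0 ≤ dV n v := by
    intro n hn v hv
    simp only [hdV]
    split_ifs with h
    · exact le_rfl
    · obtain ⟨h1, -, h2, -, -⟩ := hgood v hv h
      exact df_nonneg (isNonarchimedean v h1) hV h2 (hT n hn).2.1
  have hcZ0 : ∀ i ∈ T, ∀ v, Mem v → 0 ≤ cZ i v := by
    intro i hi v hv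
    simp only [hcZ]
    split_ifs with h
    · exact le_rfl
    · obtain ⟨h1, -⟩ := hgood v hv h
      exact Finset.sum_nonneg fun w hw => ct_nonneg (isNonarchimedean v h1) (hZ i (hTS hi) w hw)
  -- the constants of the final inequality
  set A₂ : ℝ := b * C₄ + ls R + C_V + ∑ i ∈ Γ, (e * logHeight (y i) + C_V)
    + ∑ i ∈ Γ, ls (cZ i) + C₃ with hA₂
  have key : ∀ n ∈ T, n ∉ Γ → (∀ i ∈ Γ, i < n) →
      N' * logHeight (y n) ≤ ∑ i ∈ Γ, ls (fun v => ct v (y i) (y n)) + C₃ →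
      logHeight (y n) ≤ A₂ := by
    intro n hn hnΓ hlt hlow
    have hcrn : ∀ i ∈ Γ, cr (y i) (y n) ≠ 0 := fun i hi =>
      hcry i (hΓT hi) n hn (hlt i hi).ne
    set G : AbsoluteValue K ℝ → ℝ := fun v => (logHeight (y n) + C₄) * ind v + R v + dV n v +
      ∑ i ∈ Γ, dV i v + ∑ i ∈ Γ, cZ i v with hG
    have hGFS1 : FS (fun v => (logHeight (y n) + C₄) * ind v) := hindFS.mul_left _
    have hGFS2 : FS (fun v => ∑ i ∈ Γ, dV i v) := FS.sum Γ fun i hi => (hdV1 i (hΓT hi)).1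
    have hGFS3 : FS (fun v => ∑ i ∈ Γ, cZ i v) := FS.sum Γ fun i hi => hcZ1 i (hΓT hi)
    have hGFS : FS G := (((hGFS1.add hRFS).add (hdV1 n hn).1).add hGFS2).add hGFS3
    have hlsG : ls G = (logHeight (y n) + C₄) * b + ls R + ls (dV n) + ∑ i ∈ Γ, ls (dV i) +
        ∑ i ∈ Γ, ls (cZ i) := by
      rw [hG, ls_add (((hGFS1.add hRFS).add (hdV1 n hn).1).add hGFS2) hGFS3,
        ls_add ((hGFS1.add hRFS).add (hdV1 n hn).1) hGFS2, ls_add (hGFS1.add hRFS) (hdV1 n hn).1,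
        ls_add hGFS1 hRFS, ls_mul_left, ls_sum _ fun i hi => (hdV1 i (hΓT hi)).1,
        ls_sum _ fun i hi => hcZ1 i (hΓT hi)]
    have hpt : ∀ v, Mem v → ∑ i ∈ Γ, ct v (y i) (y n) ≤ G v := by
      intro v hv
      have hV1 : 0 ≤ dV n v := hdV0 n hn v hv
      have hV2 : 0 ≤ ∑ i ∈ Γ, dV i v := Finset.sum_nonneg fun i hi => hdV0 i (hΓT hi) v hv
      have hQ2 : 0 ≤ ∑ i ∈ Γ, cZ i v := Finset.sum_nonneg fun i hi => hcZ0 i (hΓT hi) v hv
      by_cases hvB : v ∈ B'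
      · obtain ⟨i₀, hi₀, h1⟩ := sum_ct_le_log v hΓ hcrn hcrΓ
        have h2 := hct i₀ hi₀ v hv (y n) (hcrn i₀ hi₀)
        have h3 : ind v = 1 := by simp only [hind, if_pos hvB]
        simp only [hG, hR, h3, mul_one]
        linarith
      · obtain ⟨g1, g2, g4, g5, g6⟩ := hgood v hv hvB
        have hna := isNonarchimedean v g1
        obtain ⟨i₀, hi₀, h1⟩ := sum_ct_le hna hΓ hcrn hcrΓ
        have h3 : ind v = 0 := by simp only [hind, if_neg hvB]
        have hi₀T := hΓT hi₀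
        have h4 : ct v (y i₀) (y n) ≤ ct v (x i₀) (x n) + df v V e (y i₀) + df v V e (y n) :=
          ct_pl_le hna g6 hP g5 (hT i₀ hi₀T).2.1 (hT n hn).2.1 (hT i₀ hi₀T).2.2 (hT n hn).2.2
            (hcrx i₀ hi₀T n hn (hlt i₀ hi₀).ne)
        have h5 : dV n v = df v V e (y n) := by simp only [hdV, if_neg hvB]
        have h6 : df v V e (y i₀) ≤ ∑ i ∈ Γ, dV i v := by
          have h7 : dV i₀ v = df v V e (y i₀) := by simp only [hdV, if_neg hvB]
          rw [← h7]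
          exact Finset.single_le_sum (f := fun i => dV i v)
            (fun i hi => hdV0 i (hΓT hi) v hv) hi₀
        have h7 : ct v (x i₀) (x n) ≤ ∑ i ∈ Γ, cZ i v := by
          rcases le_or_gt (ct v (x i₀) (x n)) 0 with h8 | h8
          · exact h8.trans hQ2
          · obtain ⟨w, hw, hl3⟩ := hcon v g1 g2 i₀ (hTS hi₀T) n (hTS hn) (hlt i₀ hi₀) h8
            have h9 : cZ i₀ v = ∑ w ∈ Z, ct v (x i₀) w := by simp only [hcZ, if_neg hvB]
            have h10 : ct v (x i₀) w ≤ cZ i₀ v := by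
              rw [h9]
              exact Finset.single_le_sum (f := fun w => ct v (x i₀) w)
                (fun w hw => ct_nonneg hna (hZ i₀ (hTS hi₀T) w hw)) hw
            refine (hl3.trans h10).trans ?_
            exact Finset.single_le_sum (f := fun i => cZ i v)
              (fun i hi => hcZ0 i (hΓT hi) v hv) hi₀
        simp only [hG, hR, h3, mul_zero, add_zero, zero_add]
        rw [h5]
        linarith
    have hsum : ∑ i ∈ Γ, ls (fun v => ct v (y i) (y n)) ≤ ls G := by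
      rw [← ls_sum Γ fun i hi => FS_ct (hcrn i hi)]
      exact ls_mono (FS.sum Γ fun i hi => FS_ct (hcrn i hi)) hGFS hpt
    have hdVs : ∑ i ∈ Γ, ls (dV i) ≤ ∑ i ∈ Γ, (e * logHeight (y i) + C_V) :=
      Finset.sum_le_sum fun i hi => (hdV1 i (hΓT hi)).2
    have hdVn := (hdV1 n hn).2
    have hyn : 0 ≤ logHeight (y n) := logHeight_nonneg _
    have hNy : (b + e + 1) * logHeight (y n) ≤ N' * logHeight (y n) :=
      mul_le_mul_of_nonneg_right hN' hyn
    rw [hlsG] at hsum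
    simp only [hA₂]
    linarith
  -- infinitely many `n`
  obtain ⟨n₁, hn₁⟩ := count_exp_growth 0 ((e + 1) * A₂ + C₂) m₀
  have hinf : (T \ ({n ∈ T | n ∉ Γ ∧ ¬ N' * logHeight (y n) ≤
      ∑ i ∈ Γ, ls (fun v => ct v (y i) (y n)) + C₃} ∪ Set.Iic (Γ.sup id) ∪
      Set.Iio n₁ ∪ Set.Iio m₀)).Infinite :=
    hTi.sdiff (((hexc.union (Set.finite_Iic _)).union (Set.finite_Iio _)).union (Set.finite_Iio _))
  obtain ⟨n, hn, hn'⟩ := hinf.nonempty
  simp only [Set.mem_union, Set.mem_ofPred_eq, Set.mem_Iic, Set.mem_Iio, not_or, not_and,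
    not_not, not_le, not_lt] at hn'
  obtain ⟨⟨⟨h1, h2⟩, h3⟩, h4⟩ := hn'
  have hlt : ∀ i ∈ Γ, i < n := fun i hi =>
    lt_of_le_of_lt (Finset.le_sup (f := id) hi) h2
  have hnΓ : n ∉ Γ := fun h => lt_irrefl n (hlt n h)
  have h5 := key n hn hnΓ hlt (h1 hn hnΓ)
  have h6 := hn₁ n h3
  have h7 := hm₀ n h4
  have h8 := (hy1 n hn).2
  have h9 : ((e : ℝ) + 1) * logHeight (y n) ≤ (e + 1) * A₂ :=
    mul_le_mul_of_nonneg_left h5 (by positivity)
  linarith

end Pool.Agent.Helper88.TGP
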