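import Pool.Agent.Helper29.TG.Final
import Pool.Agent.Helper88.TGP.Bridge2
import Pool.Agent.Helper88.TGP.Count2

/-!
# Tower gaps over number fields: finitely many degenerate periodic points
-/

set_option autoImplicit false

namespace Pool.Agent.Helper88.TGP

open Height AdmissibleAbsValues MvPolynomial
open Pool.Agent.Helper33.SS (Sparse InZ ev jprod)
open Pool.Agent.Helper36 (iter iter_succ step growth)
open Pool.Agent.Helper29.TG

/-- One set without positive-dimensional periodic part; `Z` contains the iterates of the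
degenerate periodic points. -/
theorem sparse_one_per {K : Type} [Field K] [NumberField K] [Algebra K ℂ] {ν d : ℕ} (hd : 2 ≤ d)
    (F : Fin (ν + 1) → MvPolynomial (Fin (ν + 1)) K) (hF : ∀ i, (F i).IsHomogeneous d)
    (hnz : ∀ x : Fin (ν + 1) → ℂ, (∀ i, aeval x (F i) = 0) → x = 0)
    (a : Fin (ν + 1) → K) (ha : a ≠ 0)
    (hnp : ∀ n m, n < m → ¬ Pool.Agent.Helper36.PEq (iter F a n) (iter F a m))
    (Z : Finset (Fin (ν + 1) → K)) (hZ : ∀ n, ∀ y ∈ Z, cr (iter F a n) y ≠ 0)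
    (V : Set (MvPolynomial (Fin (ν + 1)) ℂ)) (hV : ∀ g ∈ V, ∃ e : ℕ, g.IsHomogeneous e)
    (hdim : ringKrullDim (MvPolynomial (Fin (ν + 1)) ℂ ⧸ Ideal.span V) ≤ 2)
    (hper : ∀ z : Fin (ν + 1) → ℂ, z ≠ 0 → InZ V z → ∀ k, 1 ≤ k → ∀ c : ℂ,
      (ev fun i => MvPolynomial.map (algebraMap K ℂ) (F i))^[k] z = c • z →
      ν + 1 ≤ ((jprod (fun i => MvPolynomial.map (algebraMap K ℂ) (F i)) z k) ^ 2).rank + 1
      ∨ ∀ l, ∃ y ∈ Z, ∃ c' : ℂ, (ev fun i => MvPolynomial.map (algebraMap K ℂ) (F i))^[l] z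
        = c' • fun i => algebraMap K ℂ (y i))
    (W : Set (MvPolynomial (Fin (ν + 1)) ℂ)) (hW : ∀ g ∈ W, ∃ e : ℕ, g.IsHomogeneous e)
    (hWV : ∀ x, InZ W x → InZ V x)
    (hfin : ∀ k, 1 ≤ k → ∃ B : Finset (Fin (ν + 1) → ℂ), ∀ z : Fin (ν + 1) → ℂ, z ≠ 0 →
      (∀ n, InZ W ((ev fun i => MvPolynomial.map (algebraMap K ℂ) (F i))^[k * n] z)) →
        ∃ b ∈ B, ∃ c : ℂ, z = c • b) :
    Sparse {n | InZ W (fun j => algebraMap K ℂ (iter F a n j))} := by
  classical
  set x : ℕ → Fin (ν + 1) → K := fun n => iter F a n with hxdef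
  have hx : ∀ n, x n ≠ 0 := by
    intro n
    induction n with
    | zero => exact ha
    | succ n ih =>
      show iter F a (n + 1) ≠ 0
      rw [iter_succ]
      exact step_ne_zero' F hnz ih
  have hcr : ∀ n m, n ≠ m → cr (x n) (x m) ≠ 0 := by
    intro n m hnm h
    rcases lt_or_gt_of_ne hnm with h1 | h1
    · exact hnp n m h1 (pEq_of_cr (hx n) (hx m) h)
    · refine hnp m n h1 (pEq_of_cr (hx m) (hx n) ?_)
      funext q
      have := congrFun h q
      simp only [cr, Pi.zero_apply] at this ⊢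
      linear_combination -this
  set S : Set ℕ := {n | InZ W (fun j => algebraMap K ℂ (x n j))} with hS
  by_cases hSf : S.Finite
  · exact Pool.Agent.Helper33.SS.Sparse.of_finite hSf
  have hSi : S.Infinite := hSf
  have hgrow : ∃ m₀, ∀ n, m₀ ≤ n → (2 : ℝ) ^ (n - m₀) ≤ logHeight (x n) := by
    rcases growth (L := ℂ) hd F hF hnz x hx (fun n => iter_succ F a n) with
      ⟨n, m, hnm, h⟩ | ⟨m₀, hm₀⟩
    · exact absurd h (hnp n m hnm)
    · refine ⟨m₀, fun n hn => le_trans ?_ (hm₀ n hn)⟩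
      exact pow_le_pow_left₀ (by norm_num) (by exact_mod_cast hd) _
  -- the curve
  have hcurve : OnCurveS S x := by
    intro m
    obtain ⟨e, Q, hQ, hQ0, hQv⟩ := Pool.Agent.Helper38.TQ.exists_relation_linear hV hdim
      (fun j i => algebraMap K ℂ (m j i))
    obtain ⟨ρ, hρ⟩ := Pool.Agent.Helper36.exists_mapLin_ne_zero (K := K) hQ0
    refine ⟨_, e, hρ, Pool.Agent.Helper36.mapLin_isHomogeneous ρ hQ, fun n hn => ?_⟩
    rw [Pool.Agent.Helper36.eval_mapLin]
    have h1 := hQv _ (hWV _ hn)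
    have h2 : (fun j => algebraMap K ℂ (pl m (x n) j)) =
        fun j => ∑ i, algebraMap K ℂ (m j i) * algebraMap K ℂ (x n i) := by
      funext j
      simp only [pl, lin]
      rw [map_sum]
      exact Finset.sum_congr rfl fun i _ => map_mul _ _ _
    rw [h2, h1, map_zero]
  obtain ⟨B, hB, hBgood⟩ := exists_good_reduction F hF hnz
  obtain ⟨v, hv, hvB, i, hi, n, hn, hin, hct, hlt⟩ := exists_good_place_per hx hSi
    (fun n _ m _ h => hcr n m h) hcurve hgrow Z (fun i _ y hy => hZ i y hy) hB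
  obtain ⟨h2, hint, hgood⟩ := hBgood v hv hvB
  refine sparse_of_contact_per v hv h2 F d (by omega) hF hint hgood x hx
    (fun n => ⟨1, one_ne_zero, ?_⟩) hcr i n hin hct (Z : Set (Fin (ν + 1) → K))
    (fun y hy => ⟨hZ i y hy, hlt y hy⟩) W hW (fun z hz hzW k hk c hc => ?_) hfin
  · rw [one_smul]
    exact iter_succ F a n
  · rw [Fintype.card_fin]
    exact hper z hz (hWV z hzW) k hk c hc

end Pool.Agent.Helper88.TGP
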